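import Pool.Agent.Lib.SmN.Sn.PermEV
import Pool.Agent.Lib.SmN.F.Shap

/-!
# SmN: the alternating group on the even vectors

`X` finite of odd order, `EVX X` the even vectors, `permV` the action of the permutations.
* `span_alt`: `#X ≥ 5`: every pair (endomorphism, parity) is `(∑ g ∈ T, permV g, #T)` for a set `T` of even
  permutations. PROOF. With `τ = (i j)(u v)`, `ρ = (u v t)` and `s` even,
  `s + s τ + s ρ + s ρ τ = (w ↦ (w u + w v) (e_(s u) + e_(s t)))`.
* `span_of_alt`, `span_ev_alt`: the same for a group whose image contains the even permutations.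
* `stab_alt`: a homomorphism from the stabiliser of `x0` to `F_2` which vanishes on the kernel of the
  permutation representation vanishes on the elements which act by even permutations.
* `coc_of_stab`: a cocycle with values in the even vectors whose component at `x0` vanishes on the stabiliser
  of `x0` is a coboundary; `h1_alt`: the cohomology of the alternating group vanishes.
-/

set_option autoImplicit false

open Equiv

namespace Pool.Agent.SmN.Sn

section span

variable {X : Type*} [Fintype X] [DecidableEq X]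

/-- `A` is a combination, with an even number of terms, of elements of `H`. -/
def GoodH (H : Subgroup (Perm X)) (A : EVX X →ₗ[ZMod 2] EVX X) : Prop :=
  ∃ c : Perm X → ZMod 2, (∀ g, g ∉ H → c g = 0) ∧ ∑ g, c g = 0 ∧
    ∀ w, ∑ g, c g • permV g w = A w

variable {H : Subgroup (Perm X)}

theorem GoodH.zero : GoodH H (0 : EVX X →ₗ[ZMod 2] EVX X) :=
  ⟨0, fun _ _ => rfl, by simp, fun w => by simp⟩

theorem GoodH.add {A B : EVX X →ₗ[ZMod 2] EVX X} (hA : GoodH H A) (hB : GoodH H B) :
    GoodH H (A + B) := by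
  obtain ⟨c, h0, hc, hc'⟩ := hA
  obtain ⟨d, h0', hd, hd'⟩ := hB
  refine ⟨c + d, fun g hg => ?_, ?_, fun w => ?_⟩
  · rw [Pi.add_apply, h0 g hg, h0' g hg, add_zero]
  · simp only [Pi.add_apply]
    rw [Finset.sum_add_distrib, hc, hd, add_zero]
  · simp only [Pi.add_apply, add_smul]
    rw [Finset.sum_add_distrib, hc', hd']
    rfl

theorem GoodH.smul {A : EVX X →ₗ[ZMod 2] EVX X} (hA : GoodH H A) (r : ZMod 2) :
    GoodH H (r • A) := by
  obtain ⟨c, h0, hc, hc'⟩ := hA
  refine ⟨r • c, fun g hg => ?_, ?_, fun w => ?_⟩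
  · rw [Pi.smul_apply, h0 g hg, smul_zero]
  · simp only [Pi.smul_apply, smul_eq_mul]
    rw [← Finset.mul_sum, hc, mul_zero]
  · simp only [Pi.smul_apply, smul_eq_mul, mul_smul]
    rw [← Finset.smul_sum, hc']
    rfl

theorem GoodH.sum {ι : Type*} (s : Finset ι) (A : ι → (EVX X →ₗ[ZMod 2] EVX X))
    (h : ∀ i ∈ s, GoodH H (A i)) : GoodH H (∑ i ∈ s, A i) :=
  Finset.sum_induction A (GoodH H) (fun _ _ => GoodH.add) GoodH.zero h

theorem single_smul_sum (t : Perm X) (w : EVX X) :
    ∑ g, (Pi.single t 1 : Perm X → ZMod 2) g • permV g w = permV t w := by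
  rw [Fintype.sum_eq_single t]
  · rw [Pi.single_eq_same, one_smul]
  · intro g hg
    rw [Pi.single_eq_of_ne hg, zero_smul]

theorem single_sum (t : Perm X) : ∑ g, (Pi.single t 1 : Perm X → ZMod 2) g = 1 := by
  rw [Finset.sum_pi_single', if_pos (Finset.mem_univ _)]

/-- The sum of two pairs of elements of `H`. -/
theorem goodH_four {A : EVX X →ₗ[ZMod 2] EVX X} {a b c d : Perm X} (ha : a ∈ H) (hb : b ∈ H)
    (hc : c ∈ H) (hd : d ∈ H)
    (h : ∀ w, permV a w + permV b w + (permV c w + permV d w) = A w) : GoodH H A := by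
  refine ⟨Pi.single a 1 + Pi.single b 1 + (Pi.single c 1 + Pi.single d 1), fun g hg => ?_, ?_,
    fun w => ?_⟩
  · have hne : ∀ t ∈ H, (Pi.single t 1 : Perm X → ZMod 2) g = 0 := by
      intro t ht
      refine Pi.single_eq_of_ne ?_ _
      rintro rfl
      exact hg ht
    rw [Pi.add_apply, Pi.add_apply, Pi.add_apply, hne a ha, hne b hb, hne c hc, hne d hd]
    rfl
  · simp only [Pi.add_apply]
    rw [Finset.sum_add_distrib, Finset.sum_add_distrib, Finset.sum_add_distrib, single_sum,
      single_sum, single_sum, single_sum]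
    decide
  · simp only [Pi.add_apply, add_smul]
    rw [Finset.sum_add_distrib, Finset.sum_add_distrib, Finset.sum_add_distrib, single_smul_sum,
      single_smul_sum, single_smul_sum, single_smul_sum]
    exact h w

theorem ekl_add (a b c : X) : ekl a b + ekl b c = ekl a c := by
  apply Subtype.ext
  change (Pi.single a 1 + Pi.single b 1 : X → ZMod 2) + (Pi.single b 1 + Pi.single c 1) =
    Pi.single a 1 + Pi.single c 1
  rw [add_assoc, ← add_assoc (Pi.single b 1 : X → ZMod 2) (Pi.single b 1), ZModModule.add_self,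
    zero_add]

/-- Three elements outside a pair. -/
theorem exists_three (h5 : 5 ≤ Fintype.card X) (u v : X) :
    ∃ i j t : X, i ≠ j ∧ i ≠ t ∧ j ≠ t ∧ i ≠ u ∧ i ≠ v ∧ j ≠ u ∧ j ≠ v ∧ t ≠ u ∧ t ≠ v := by
  have hc : 2 < (Finset.univ \ {u, v} : Finset X).card := by
    have h1 := Finset.card_sdiff_add_card (Finset.univ : Finset X) {u, v}
    have h2 : ({u, v} : Finset X).card ≤ 2 := Finset.card_le_two
    have h3 : ((Finset.univ : Finset X) ∪ {u, v}).card = Fintype.card X := by
      rw [Finset.union_eq_left.2 (Finset.subset_univ _), Finset.card_univ]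
    omega
  obtain ⟨i, hi, j, hj, t, ht, hij, hit, hjt⟩ := Finset.two_lt_card.1 hc
  rw [Finset.mem_sdiff, Finset.mem_insert, Finset.mem_singleton, not_or] at hi hj ht
  exact ⟨i, j, t, hij, hit, hjt, hi.2.1, hi.2.2, hj.2.1, hj.2.2, ht.2.1, ht.2.2⟩

/-- An even permutation with two prescribed values. -/
theorem exists_even {u t a c : X} (hut : u ≠ t) (hac : a ≠ c) {i j : X} (hij : i ≠ j)
    (hiu : i ≠ u) (hit : i ≠ t) (hju : j ≠ u) (hjt : j ≠ t) :
    ∃ s ∈ alternatingGroup X, s u = a ∧ s t = c := by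
  obtain ⟨s, h1, h2⟩ := exists_perm hut hac
  rcases Int.units_eq_one_or (Perm.sign s) with h | h
  · exact ⟨s, Perm.mem_alternatingGroup.2 h, h1, h2⟩
  · refine ⟨s * swap i j, Perm.mem_alternatingGroup.2 ?_, ?_, ?_⟩
    · rw [Perm.sign_mul, h, Perm.sign_swap hij]
      rfl
    · rw [Perm.mul_apply, swap_apply_of_ne_of_ne (Ne.symm hiu) (Ne.symm hju), h1]
    · rw [Perm.mul_apply, swap_apply_of_ne_of_ne (Ne.symm hit) (Ne.symm hjt), h2]

theorem goodH_rk1 (h5 : 5 ≤ Fintype.card X) (u v a c : X) :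
    GoodH (alternatingGroup X) (rk1 u v a c) := by
  by_cases huv : u = v
  · have : rk1 u v a c = 0 := by
      ext1 w
      change (w.1 u + w.1 v) • ekl a c = 0
      rw [huv, CharTwo.add_self_eq_zero, zero_smul]
    rw [this]
    exact GoodH.zero
  by_cases hac : a = c
  · have : rk1 u v a c = 0 := by
      ext1 w
      change (w.1 u + w.1 v) • ekl a c = 0
      rw [hac, ekl_self, smul_zero]
    rw [this]
    exact GoodH.zero
  obtain ⟨i, j, t, hij, hit, hjt, hiu, hiv, hju, hjv, htu, htv⟩ := exists_three h5 u v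
  obtain ⟨s, hs, hs1, hs2⟩ := exists_even (Ne.symm htu) hac hij hiu hit hju hjt
  have hτ : swap i j * swap u v ∈ alternatingGroup X := by
    rw [Perm.mem_alternatingGroup, Perm.sign_mul, Perm.sign_swap hij, Perm.sign_swap huv]
    rfl
  have hρ : swap u v * swap v t ∈ alternatingGroup X := by
    rw [Perm.mem_alternatingGroup, Perm.sign_mul, Perm.sign_swap huv, Perm.sign_swap (Ne.symm htv)]
    rfl
  have hτw : ∀ w : EVX X, permV (swap i j * swap u v) w =
      w + ((w.1 u + w.1 v) • ekl u v + (w.1 i + w.1 j) • ekl i j) := by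
    intro w
    rw [map_mul, LinearEquiv.mul_apply, permV_swap i j, permV_apply, permV_apply, swap_inv,
      swap_apply_of_ne_of_ne hiu hiv, swap_apply_of_ne_of_ne hju hjv, permV_swap u v, add_assoc]
  have hρu : (swap u v * swap v t) u = v := by
    rw [Perm.mul_apply, swap_apply_of_ne_of_ne huv (Ne.symm htu), swap_apply_left]
  have hρv : (swap u v * swap v t) v = t := by
    rw [Perm.mul_apply, swap_apply_left, swap_apply_of_ne_of_ne htu htv]
  have hρi : (swap u v * swap v t) i = i := by
    rw [Perm.mul_apply, swap_apply_of_ne_of_ne hiv hit, swap_apply_of_ne_of_ne hiu hiv]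
  have hρj : (swap u v * swap v t) j = j := by
    rw [Perm.mul_apply, swap_apply_of_ne_of_ne hjv hjt, swap_apply_of_ne_of_ne hju hjv]
  refine goodH_four (H := alternatingGroup X) hs (mul_mem hs hτ) (mul_mem hs hρ)
    (mul_mem (mul_mem hs hρ) hτ) fun w => ?_
  have e1 : permV s w + permV (s * (swap i j * swap u v)) w =
      permV s ((w.1 u + w.1 v) • ekl u v + (w.1 i + w.1 j) • ekl i j) := by
    rw [map_mul permV s, LinearEquiv.mul_apply, hτw, map_add (permV s) w, ← add_assoc,
      ZModModule.add_self, zero_add]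
  have e2 : permV (s * (swap u v * swap v t)) w +
      permV (s * (swap u v * swap v t) * (swap i j * swap u v)) w =
      permV s ((w.1 u + w.1 v) • ekl v t + (w.1 i + w.1 j) • ekl i j) := by
    rw [map_mul permV (s * (swap u v * swap v t)), LinearEquiv.mul_apply, hτw,
      map_add (permV (s * (swap u v * swap v t))) w, ← add_assoc, ZModModule.add_self, zero_add,
      map_mul permV s, LinearEquiv.mul_apply, map_add (permV (swap u v * swap v t)), map_smul,
      map_smul, permV_ekl, permV_ekl, hρu, hρv, hρi, hρj]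
  rw [e1, e2, ← map_add]
  have e3 : (w.1 u + w.1 v) • ekl u v + (w.1 i + w.1 j) • ekl i j +
      ((w.1 u + w.1 v) • ekl v t + (w.1 i + w.1 j) • ekl i j) = (w.1 u + w.1 v) • ekl u t := by
    rw [← ekl_add u v t, smul_add, add_add_add_comm, ZModModule.add_self, add_zero]
  rw [e3, map_smul, permV_ekl, hs1, hs2]
  rfl

/-- Every endomorphism is a sum of the operators of rank one. -/
theorem eq_sum_rk1 (hX : Odd (Fintype.card X)) (l : X) (A : EVX X →ₗ[ZMod 2] EVX X) :
    A = ∑ i, ∑ j, ∑ k, (A (ebar hX i)).1 k • rk1 i j k l := by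
  have hodd : ((Fintype.card X : ℕ) : ZMod 2) = 1 := ZMod.natCast_eq_one_iff_odd.2 hX
  ext1 w
  have h1 : ∀ v : EVX X, ∑ k, v.1 k • ekl k l = v := by
    intro v
    apply Subtype.ext
    rw [Submodule.coe_sum]
    funext x
    rw [Finset.sum_apply]
    change ∑ k, v.1 k * ((Pi.single k 1 : X → ZMod 2) x + (Pi.single l 1 : X → ZMod 2) x) = _
    simp only [mul_add]
    rw [Finset.sum_add_distrib, ← Finset.sum_mul, mem_EVX.1 v.2, zero_mul, add_zero,
      Finset.sum_eq_single x]
    · rw [Pi.single_eq_same, mul_one]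
    · intro k _ hk
      rw [Pi.single_eq_of_ne (Ne.symm hk), mul_zero]
    · intro h
      exact absurd (Finset.mem_univ _) h
  have h2 : ∀ i, ∑ j, (w.1 i + w.1 j) = w.1 i := by
    intro i
    rw [Finset.sum_add_distrib, mem_EVX.1 w.2, add_zero, Finset.sum_const, nsmul_eq_mul,
      Finset.card_univ, hodd, one_mul]
  have h3 : w = ∑ i, w.1 i • ebar hX i := by
    apply Subtype.ext
    rw [Submodule.coe_sum]
    funext x
    rw [Finset.sum_apply]
    change _ = ∑ k, w.1 k * ((Pi.single k 1 : X → ZMod 2) x + 1)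
    simp only [mul_add, mul_one]
    rw [Finset.sum_add_distrib, mem_EVX.1 w.2, add_zero, Finset.sum_eq_single x]
    · rw [Pi.single_eq_same, mul_one]
    · intro k _ hk
      rw [Pi.single_eq_of_ne (Ne.symm hk), mul_zero]
    · intro h
      exact absurd (Finset.mem_univ _) h
  conv_lhs => rw [h3, map_sum]
  rw [LinearMap.sum_apply]
  refine Finset.sum_congr rfl fun i _ => ?_
  rw [LinearMap.sum_apply, map_smul]
  have h4 : ∀ j, (∑ k, (A (ebar hX i)).1 k • rk1 i j k l) w
      = (w.1 i + w.1 j) • A (ebar hX i) := by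
    intro j
    rw [LinearMap.sum_apply]
    conv_rhs => rw [← h1 (A (ebar hX i)), Finset.smul_sum]
    refine Finset.sum_congr rfl fun k _ => ?_
    change (A (ebar hX i)).1 k • ((w.1 i + w.1 j) • ekl k l) = _
    rw [smul_comm]
  simp only [h4]
  rw [← Finset.sum_smul, h2]

theorem goodH_all (hX : Odd (Fintype.card X)) (h5 : 5 ≤ Fintype.card X)
    (A : EVX X →ₗ[ZMod 2] EVX X) : GoodH (alternatingGroup X) A := by
  have hne : Nonempty X := Fintype.card_pos_iff.1 hX.pos
  obtain ⟨l⟩ := hne
  rw [eq_sum_rk1 hX l A]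
  exact GoodH.sum _ _ fun i _ => GoodH.sum _ _ fun j _ => GoodH.sum _ _ fun k _ =>
    (goodH_rk1 h5 i j k l).smul _

/-- **The group algebra of the alternating group maps onto `End × F_2`.** -/
theorem span_alt (hX : Odd (Fintype.card X)) (h5 : 5 ≤ Fintype.card X)
    (A : EVX X →ₗ[ZMod 2] EVX X) (ε : ZMod 2) :
    ∃ T : Finset (Perm X), (∀ g ∈ T, g ∈ alternatingGroup X) ∧
      (∀ w, ∑ g ∈ T, permV g w = A w) ∧ (T.card : ZMod 2) = ε := by
  have key : ∃ c : Perm X → ZMod 2, (∀ g, g ∉ alternatingGroup X → c g = 0) ∧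
      (∀ w, ∑ g, c g • permV g w = A w) ∧ ∑ g, c g = ε := by
    have h01 : ε = 0 ∨ ε = 1 := by
      revert ε
      decide
    rcases h01 with rfl | rfl
    · obtain ⟨c, h0, h1, h2⟩ := goodH_all hX h5 A
      exact ⟨c, h0, h2, h1⟩
    · obtain ⟨c, h0, h1, h2⟩ := goodH_all hX h5 (A - LinearMap.id)
      refine ⟨c + Pi.single 1 1, fun g hg => ?_, fun w => ?_, ?_⟩
      · rw [Pi.add_apply, h0 g hg, zero_add]
        refine Pi.single_eq_of_ne ?_ _
        rintro rfl
        exact hg (alternatingGroup X).one_mem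
      · simp only [Pi.add_apply, add_smul]
        rw [Finset.sum_add_distrib, h2, single_smul_sum, map_one]
        change A w - w + w = A w
        exact sub_add_cancel _ _
      · simp only [Pi.add_apply]
        rw [Finset.sum_add_distrib, h1, single_sum, zero_add]
  obtain ⟨c, h0, h1, h2⟩ := key
  have hc : ∀ g, c g = if c g = 1 then 1 else 0 := by
    intro g
    generalize c g = a
    revert a
    decide
  refine ⟨Finset.univ.filter fun g => c g = 1, fun g hg => ?_, fun w => ?_, ?_⟩
  · by_contra hne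
    rw [Finset.mem_filter, h0 g hne] at hg
    exact zero_ne_one hg.2
  · rw [← h1 w, Finset.sum_filter]
    refine Finset.sum_congr rfl fun g _ => ?_
    rw [hc g]
    by_cases h : c g = 1
    · simp [h]
    · simp [h]
  · rw [← h2, Finset.card_filter, Nat.cast_sum]
    refine Finset.sum_congr rfl fun g _ => ?_
    rw [hc g]
    by_cases h : c g = 1
    · simp [h]
    · simp [h]

/-- The same for a group whose image contains the even permutations; the elements of `T` are in a
given subgroup `M` whose image contains the even permutations. -/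
theorem span_of_alt (hX : Odd (Fintype.card X)) (h5 : 5 ≤ Fintype.card X) {G : Type*} [Group G]
    (r : G →* Perm X) (M : Subgroup G) (hr : alternatingGroup X ≤ M.map r)
    (A : EVX X →ₗ[ZMod 2] EVX X) (ε : ZMod 2) :
    ∃ T : Finset G, (∀ g ∈ T, g ∈ M) ∧ (∀ w, ∑ g ∈ T, permV (r g) w = A w) ∧
      (T.card : ZMod 2) = ε := by
  classical
  obtain ⟨T, h0, h1, h2⟩ := span_alt hX h5 A ε
  have hf : ∀ σ : Perm X, ∃ g : G, σ ∈ alternatingGroup X → g ∈ M ∧ r g = σ := by
    intro σ
    by_cases hσ : σ ∈ alternatingGroup X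
    · obtain ⟨g, hg, h⟩ := Subgroup.mem_map.1 (hr hσ)
      exact ⟨g, fun _ => ⟨hg, h⟩⟩
    · exact ⟨1, fun h => absurd h hσ⟩
  choose f hf using hf
  have hinj : Set.InjOn f (T : Set (Perm X)) := by
    intro a ha b hb hab
    rw [← (hf a (h0 a ha)).2, ← (hf b (h0 b hb)).2, hab]
  refine ⟨T.image f, fun g hg => ?_, fun w => ?_, ?_⟩
  · obtain ⟨σ, hσ, rfl⟩ := Finset.mem_image.1 hg
    exact (hf σ (h0 σ hσ)).1
  · rw [Finset.sum_image hinj, ← h1 w]
    refine Finset.sum_congr rfl fun g hg => ?_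
    rw [(hf g (h0 g hg)).2]
  · rw [Finset.card_image_of_injOn hinj, h2]

open Pool.Agent.SmJ.L (EV dotE dotE_apply) in
/-- The field `span` for a group whose image contains the even permutations, `g ≥ 2`; the elements of
`T` can be chosen in a subgroup with the same property. -/
theorem span_ev_alt {G : Type*} [Group G] {g : ℕ} (hg : 2 ≤ g) (r : G →* Perm (Fin (2 * g + 1)))
    (M : Subgroup G) (hr : alternatingGroup (Fin (2 * g + 1)) ≤ M.map r)
    (ac : G →* (EV g ≃ₗ[ZMod 2] EV g))
    (hac : ∀ (s : G) (w : EV g) (x : Fin (2 * g + 1)), (ac s w).1 x = w.1 ((r s)⁻¹ x))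
    (A : EV g →ₗ[ZMod 2] EV g) (ε : ZMod 2) :
    ∃ T : Finset G, (∀ s ∈ T, s ∈ M) ∧ (∀ w, ∑ s ∈ T, ac s w = A w) ∧ (T.card : ZMod 2) = ε := by
  obtain ⟨T, h0, h1, h2⟩ := span_of_alt (X := Fin (2 * g + 1)) (card_odd g)
    (by rw [Fintype.card_fin]; omega) r M hr A ε
  refine ⟨T, h0, fun w => ?_, h2⟩
  refine Eq.trans ?_ (h1 w)
  refine Finset.sum_congr rfl fun s _ => ?_
  apply Subtype.ext
  funext x
  rw [hac]
  rfl

end span

section h1

open Pool.Agent.SmN.F

variable {X : Type*} [DecidableEq X] {G : Type*} [Group G]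

/-- Generation of the even permutations which fix `x0` by 3-cycles. -/
theorem stab_alt [Fintype X] (r : G →* Perm X) (hr : alternatingGroup X ≤ r.range) (x0 : X)
    (b : G → ZMod 2) (hb : ∀ s, r s x0 = x0 → ∀ t, r t x0 = x0 → b (s * t) = b s + b t)
    (hk : ∀ s, r s = 1 → b s = 0) (s : G) (hs : r s x0 = x0) (hse : r s ∈ alternatingGroup X) :
    b s = 0 := by
  have hfix : ∀ (σ : Perm {x // x ≠ x0}) (s : G), r s = Perm.ofSubtype σ → r s x0 = x0 := by
    intro σ s h
    rw [h]
    exact Perm.ofSubtype_apply_of_not_mem σ (not_not.2 rfl)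
  have key : ∀ σ ∈ Subgroup.closure {σ : Perm {x // x ≠ x0} | σ.IsThreeCycle},
      ∀ s : G, r s = Perm.ofSubtype σ → b s = 0 := by
    intro σ hσ
    induction hσ using Subgroup.closure_induction with
    | mem σ h =>
      intro s hs
      have h3 : σ ^ 3 = 1 := by
        have := pow_orderOf_eq_one σ
        rwa [Perm.IsThreeCycle.orderOf h] at this
      have h1 : b (s * s * s) = 0 := by
        apply hk
        rw [map_mul, map_mul, hs, ← map_mul, ← map_mul]
        have h4 : σ * σ * σ = 1 := by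
          rw [← h3, pow_succ, pow_two]
        rw [h4, map_one]
      have h5 := hfix σ s hs
      have h6 : r (s * s) x0 = x0 := by
        rw [map_mul, Perm.mul_apply, h5, h5]
      rw [hb _ h6 _ h5, hb _ h5 _ h5, CharTwo.add_self_eq_zero, zero_add] at h1
      exact h1
    | one =>
      intro s hs
      apply hk
      rw [hs, map_one]
    | mul σ τ hσ hτ h1 h2 =>
      intro s hs
      rw [Perm.closure_three_cycles_eq_alternating] at hσ hτ
      have h3 : Perm.ofSubtype σ ∈ alternatingGroup X := by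
        rw [Perm.mem_alternatingGroup, Perm.sign_ofSubtype]
        exact hσ
      obtain ⟨u, hu⟩ := hr h3
      have h4 : r (u⁻¹ * s) = Perm.ofSubtype τ := by
        rw [map_mul, map_inv, hu, hs, map_mul]
        group
      have h5 := hb u (hfix σ u hu) (u⁻¹ * s) (hfix τ _ h4)
      rw [mul_inv_cancel_left] at h5
      rw [h5, h1 u hu, h2 _ h4, add_zero]
    | inv σ hσ h1 =>
      intro s hs
      have h4 : r s⁻¹ = Perm.ofSubtype σ := by
        rw [map_inv, hs, map_inv, inv_inv]
      have h5 := hb s (hfix σ⁻¹ s hs) s⁻¹ (hfix σ _ h4)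
      rw [mul_inv_cancel, hk 1 (map_one r), h1 _ h4, add_zero] at h5
      exact h5.symm
  have hp : ∀ x, r s x ≠ x0 ↔ x ≠ x0 := by
    intro x
    rw [not_iff_not]
    constructor
    · intro h
      rw [← hs] at h
      exact (r s).injective h
    · intro h
      rw [h, hs]
  have hq : ∀ x, r s x ≠ x → x ≠ x0 := by
    intro x hx h
    exact hx (by rw [h, hs])
  refine key ((r s).subtypePerm hp) ?_ s ?_
  · rw [Perm.closure_three_cycles_eq_alternating, Perm.mem_alternatingGroup]
    exact (Perm.sign_subtypePerm (r s) hp hq).trans (Perm.mem_alternatingGroup.1 hse)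
  · exact (Perm.ofSubtype_subtypePerm hp hq).symm

/-- A cocycle with values in the even vectors whose component at `x0` vanishes on the elements of the
stabiliser of `x0` which act by even permutations is a coboundary. -/
theorem coc_of_stab [Fintype X] (hX : Odd (Fintype.card X)) (r : G →* Perm X) (x0 : X)
    (htr : ∀ x, ∃ g, r g x = x0) (c : G → EVX X)
    (hc : ∀ s t, c (s * t) = c s + permV (r s) (c t))
    (h0 : ∀ s, r s x0 = x0 → r s ∈ alternatingGroup X → (c s).1 x0 = 0) :
    ∃ z : EVX X, ∀ s, c s = permV (r s) z - z := by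
  let _ : MulAction G X := MulAction.compHom X r
  have hsm : ∀ (s : G) (x : X), s • x = r s x := fun _ _ => rfl
  have hinv : ∀ (s : G) (x : X), (r s)⁻¹ x = s⁻¹ • x := fun s x => by rw [hsm, map_inv]
  choose p hp using htr
  have hp' : ∀ x, p x • x = x0 := hp
  have hodd : ((Fintype.card X : ℕ) : ZMod 2) = 1 := ZMod.natCast_eq_one_iff_odd.2 hX
  have hst : ∀ s, r s x0 = x0 → (r s)⁻¹ x0 = x0 := fun s h => by
    rw [Perm.inv_eq_iff_eq, h]
  have hb : ∀ s, r s x0 = x0 → ∀ t, (c (s * t)).1 x0 = (c s).1 x0 + (c t).1 x0 := by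
    intro s hs t
    rw [hc]
    change (c s).1 x0 + (permV (r s) (c t)).1 x0 = _
    rw [permV_apply, hst s hs]
  -- the sign of the action
  obtain ⟨sg, hsg, hsg0, hsg1⟩ : ∃ sg : G → ZMod 2, (∀ s t, sg (s * t) = sg s + sg t) ∧
      (∀ s, r s ∈ alternatingGroup X → sg s = 0) ∧ ∀ s, r s ∉ alternatingGroup X → sg s = 1 := by
    refine ⟨fun s => if Perm.sign (r s) = 1 then 0 else 1, fun s t => ?_, fun s hs => ?_,
      fun s hs => ?_⟩
    · beta_reduce
      rw [map_mul, Perm.sign_mul]
      rcases Int.units_eq_one_or (Perm.sign (r s)) with h | h <;>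
        rcases Int.units_eq_one_or (Perm.sign (r t)) with h' | h' <;> rw [h, h'] <;> decide
    · exact if_pos (Perm.mem_alternatingGroup.1 hs)
    · exact if_neg fun h => hs (Perm.mem_alternatingGroup.2 h)
  -- the component at `x0` is a multiple of the sign
  have hex : ∃ a : ZMod 2, ∀ s, r s x0 = x0 → (c s).1 x0 = a * sg s := by
    by_cases h : ∃ s0, r s0 x0 = x0 ∧ (c s0).1 x0 ≠ 0
    · obtain ⟨s0, h1, h2⟩ := h
      have h01 : ∀ t : ZMod 2, t ≠ 0 → t = 1 := by decide
      have h3 : sg s0 = 1 := by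
        by_contra h
        refine h2 (h0 s0 h1 ?_)
        by_contra h'
        exact h (hsg1 s0 h')
      refine ⟨1, fun s hs => ?_⟩
      rw [one_mul]
      by_cases h4 : r s ∈ alternatingGroup X
      · rw [h0 s hs h4, hsg0 s h4]
      · have h5 : sg s = 1 := hsg1 s h4
        have h6 : sg (s * s0) = 0 := by
          rw [hsg, h5, h3]
          decide
        have h7 : r (s * s0) ∈ alternatingGroup X := by
          by_contra h'
          have := hsg1 _ h'
          rw [h6] at this
          exact zero_ne_one this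
        have h8 : r (s * s0) x0 = x0 := by
          rw [map_mul, Perm.mul_apply, h1, hs]
        have h9 := h0 _ h8 h7
        rw [hb s hs s0, h01 _ h2] at h9
        rw [h5]
        exact CharTwo.add_eq_zero.1 h9
    · push Not at h
      exact ⟨0, fun s hs => by rw [h s hs, zero_mul]⟩
  obtain ⟨a, ha⟩ := hex
  have hcoc : IsCoc (⊤ : Subgroup G) (fun (s : G) (x : X) => (c s).1 x + a * sg s) := by
    intro s _ t _ x
    change (c (s * t)).1 x + a * sg (s * t) = (c s).1 x + a * sg s + ((c t).1 (s⁻¹ • x) + a * sg t)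
    rw [hc, hsg]
    change (c s).1 x + (permV (r s) (c t)).1 x + a * (sg s + sg t) = _
    rw [permV_apply, hinv]
    ring
  obtain ⟨z, hz⟩ := coc_sh hp' hcoc
  have hz' : ∀ s x, (c s).1 x + a * sg s = z x + z (s⁻¹ • x) := by
    intro s x
    refine (hz s x).trans ?_
    have h1 : sh p (fun t => (c t).1 x0 + a * sg t) s x = 0 := by
      unfold sh
      have h2 := MulAction.mem_stabilizer_iff.1 (sh_mem hp' s x)
      change (c (p x * s * (p (s⁻¹ • x))⁻¹)).1 x0 + a * sg (p x * s * (p (s⁻¹ • x))⁻¹) = 0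
      rw [ha _ h2]
      exact CharTwo.add_self_eq_zero _
    rw [h1, zero_add]
  have hsum : ∀ s, a * sg s = 0 := by
    intro s
    have h1 : ∑ x, ((c s).1 x + a * sg s) = ∑ x, (z x + z (s⁻¹ • x)) :=
      Finset.sum_congr rfl fun x _ => hz' s x
    rw [Finset.sum_add_distrib, mem_EVX.1 (c s).2, zero_add, Finset.sum_const, nsmul_eq_mul,
      Finset.card_univ, hodd, one_mul, Finset.sum_add_distrib] at h1
    have h2 : ∑ x, z (s⁻¹ • x) = ∑ x, z x := Equiv.sum_comp (r s⁻¹) z
    rw [h1, h2]
    exact CharTwo.add_self_eq_zero _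
  refine ⟨⟨fun x => z x + ∑ y, z y, ?_⟩, fun s => ?_⟩
  · rw [mem_EVX, Finset.sum_add_distrib, Finset.sum_const, nsmul_eq_mul, Finset.card_univ, hodd,
      one_mul]
    exact CharTwo.add_self_eq_zero _
  · apply Subtype.ext
    funext x
    have h1 := hz' s x
    rw [hsum, add_zero] at h1
    rw [h1]
    change z x + z (s⁻¹ • x) = (z ((r s)⁻¹ x) + ∑ y, z y) - (z x + ∑ y, z y)
    rw [hinv, CharTwo.sub_eq_add]
    have h2 : (∑ y, z y) + ∑ y, z y = 0 := CharTwo.add_self_eq_zero _
    linear_combination (-1 : ZMod 2) * h2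

/-- The alternating group is transitive. -/
theorem alt_trans [Fintype X] (h3 : 3 ≤ Fintype.card X) (x y : X) :
    ∃ s ∈ alternatingGroup X, s x = y := by
  by_cases hxy : x = y
  · exact ⟨1, (alternatingGroup X).one_mem, hxy⟩
  obtain ⟨t, ht⟩ : ∃ t, t ∉ ({x, y} : Finset X) := by
    by_contra h
    push Not at h
    have h1 : (Finset.univ : Finset X) ⊆ {x, y} := fun t _ => h t
    have h2 := Finset.card_le_card h1
    rw [Finset.card_univ] at h2
    have h4 : ({x, y} : Finset X).card ≤ 2 := Finset.card_le_two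
    omega
  rw [Finset.mem_insert, Finset.mem_singleton, not_or] at ht
  refine ⟨swap y t * swap x t, ?_, ?_⟩
  · rw [Perm.mem_alternatingGroup, Perm.sign_mul, Perm.sign_swap (Ne.symm ht.1),
      Perm.sign_swap (Ne.symm ht.2)]
    rfl
  · rw [Perm.mul_apply, swap_apply_left, swap_apply_right]

/-- **The cohomology.** A cocycle with values in the even vectors, of a group whose image contains the
even permutations, which vanishes on the kernel of the action is a coboundary. -/
theorem h1_of_alt [Fintype X] (hX : Odd (Fintype.card X)) (h3 : 3 ≤ Fintype.card X)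
    (r : G →* Perm X) (hr : alternatingGroup X ≤ r.range) (c : G → EVX X)
    (hc : ∀ s t, c (s * t) = c s + permV (r s) (c t)) (hk : ∀ s, r s = 1 → c s = 0) :
    ∃ z : EVX X, ∀ s, c s = permV (r s) z - z := by
  obtain ⟨x0⟩ : Nonempty X := Fintype.card_pos_iff.1 hX.pos
  refine coc_of_stab hX r x0 (fun x => ?_) c hc fun s hs hse => ?_
  · obtain ⟨σ, hσ, h⟩ := alt_trans h3 x x0
    obtain ⟨g, hg⟩ := hr hσ
    exact ⟨g, by rw [hg, h]⟩
  · refine stab_alt r hr x0 (fun s => (c s).1 x0) (fun s hs t ht => ?_) (fun s hs => ?_) s hs hse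
    · change (c (s * t)).1 x0 = (c s).1 x0 + (c t).1 x0
      rw [hc]
      change (c s).1 x0 + (permV (r s) (c t)).1 x0 = _
      rw [permV_apply]
      have h4 : (r s)⁻¹ x0 = x0 := by rw [Perm.inv_eq_iff_eq, hs]
      rw [h4]
    · change (c s).1 x0 = 0
      rw [hk s hs]
      rfl

open Pool.Agent.SmJ.L (EV dotE dotE_apply) in
/-- The same for the even vectors `EV g`, `g ≥ 1` (the field `znd` of `GeoOk`). -/
theorem h1_ev_alt {g : ℕ} (hg : 1 ≤ g) (r : G →* Perm (Fin (2 * g + 1)))
    (hr : alternatingGroup (Fin (2 * g + 1)) ≤ r.range) (ac : G →* (EV g ≃ₗ[ZMod 2] EV g))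
    (hac : ∀ (s : G) (w : EV g) (x : Fin (2 * g + 1)), (ac s w).1 x = w.1 ((r s)⁻¹ x))
    (c : G → EV g) (hc : ∀ s t, c (s * t) = c s + ac s (c t)) (hk : ∀ s, r s = 1 → c s = 0) :
    ∃ z : EV g, ∀ s, c s = ac s z - z := by
  have hpv : ∀ (s : G) (w : EV g), (permV (X := Fin (2 * g + 1)) (r s) w : EV g) = ac s w := by
    intro s w
    apply Subtype.ext
    funext x
    rw [hac]
    rfl
  obtain ⟨z, hz⟩ := h1_of_alt (X := Fin (2 * g + 1)) (card_odd g)
    (by rw [Fintype.card_fin]; omega) r hr c (fun s t => by rw [hc, ← hpv]; rfl) hk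
  exact ⟨z, fun s => by rw [← hpv]; exact hz s⟩

/-- No nonzero even vector is fixed by the alternating group, `g ≥ 1`. -/
theorem nofix_ev_alt {g : ℕ} (hg : 1 ≤ g) (r : G →* Perm (Fin (2 * g + 1))) (M : Subgroup G)
    (hr : alternatingGroup (Fin (2 * g + 1)) ≤ M.map r)
    (ac : G →* (Pool.Agent.SmJ.L.EV g ≃ₗ[ZMod 2] Pool.Agent.SmJ.L.EV g))
    (hac : ∀ (s : G) (w : Pool.Agent.SmJ.L.EV g) (x : Fin (2 * g + 1)),
      (ac s w).1 x = w.1 ((r s)⁻¹ x))
    (w : Pool.Agent.SmJ.L.EV g) (hw : ∀ s ∈ M, ac s w = w) : w = 0 := by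
  refine nofix_ev (alternatingGroup (Fin (2 * g + 1))) (fun x y => ?_) w fun σ hσ x => ?_
  · exact alt_trans (by rw [Fintype.card_fin]; omega) x y
  · obtain ⟨s, hs, rfl⟩ := Subgroup.mem_map.1 (hr hσ)
    rw [← hac, hw s hs]

end h1

end Pool.Agent.SmN.Sn
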