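import Mathlib

/-!
# SmN: the group algebra of the symmetric group on the even vectors

`X` finite of odd order, `EVX X` = the vectors in `X → ZMod 2` with sum `0`, `permV` = the action of
`Equiv.Perm X` on it, `(s a) x = a (s⁻¹ x)`. `span_perm`: every pair (endomorphism, parity) is
`(∑ g ∈ T, permV g, #T)` for a set `T` of permutations.

PROOF. `s + s (i j) = (w ↦ (w i + w j) (e_(s i) + e_(s j)))`, and every endomorphism is a sum of such
operators of rank one: `w = ∑ w i (e_i + 1)`, `w i = ∑ j, (w i + w j)`, `v = ∑ v k (e_k + e_l)`. These sums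
have an even number of terms; for the odd ones add the identity.
-/

set_option autoImplicit false

open Equiv

namespace Pool.Agent.SmN.Sn

variable (X : Type*) [Fintype X]

/-- The even vectors. -/
def EVX : Submodule (ZMod 2) (X → ZMod 2) where
  carrier := {a | ∑ x, a x = 0}
  add_mem' := by
    intro a b ha hb
    simp only [Set.mem_ofPred_eq, Pi.add_apply] at *
    rw [Finset.sum_add_distrib, ha, hb, add_zero]
  zero_mem' := by simp
  smul_mem' := by
    intro c a ha
    simp only [Set.mem_ofPred_eq, Pi.smul_apply, smul_eq_mul] at *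
    rw [← Finset.mul_sum, ha, mul_zero]

variable {X}

theorem mem_EVX {a : X → ZMod 2} : a ∈ EVX X ↔ ∑ x, a x = 0 := Iff.rfl

/-- The action of one permutation. -/
def permL (s : Perm X) : EVX X →ₗ[ZMod 2] EVX X where
  toFun a := ⟨fun x => a.1 (s⁻¹ x), by
    rw [mem_EVX, Equiv.sum_comp s⁻¹ a.1]
    exact a.2⟩
  map_add' _ _ := rfl
  map_smul' _ _ := rfl

theorem permL_apply (s : Perm X) (a : EVX X) (x : X) : (permL s a).1 x = a.1 (s⁻¹ x) := rfl

theorem permL_mul (s t : Perm X) (a : EVX X) : permL (s * t) a = permL s (permL t a) := by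
  apply Subtype.ext
  funext x
  rw [permL_apply, permL_apply, permL_apply, mul_inv_rev]
  rfl

theorem permL_one (a : EVX X) : permL 1 a = a := rfl

/-- The action of the permutations. -/
def permV : Perm X →* (EVX X ≃ₗ[ZMod 2] EVX X) where
  toFun s := { permL s with
    invFun := permL s⁻¹
    left_inv := fun a => by
      change permL s⁻¹ (permL s a) = a
      rw [← permL_mul, inv_mul_cancel, permL_one]
    right_inv := fun a => by
      change permL s (permL s⁻¹ a) = a
      rw [← permL_mul, mul_inv_cancel, permL_one] }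
  map_one' := rfl
  map_mul' s t := LinearEquiv.ext fun a => permL_mul s t a

theorem permV_apply (s : Perm X) (a : EVX X) (x : X) : (permV s a).1 x = a.1 (s⁻¹ x) := rfl

variable [DecidableEq X]

/-- `A` is a combination, with an even number of terms, of permutations. -/
def Good (A : EVX X →ₗ[ZMod 2] EVX X) : Prop :=
  ∃ c : Perm X → ZMod 2, ∑ g, c g = 0 ∧ ∀ w, ∑ g, c g • permV g w = A w

theorem Good.zero : Good (0 : EVX X →ₗ[ZMod 2] EVX X) := ⟨0, by simp, fun w => by simp⟩

theorem Good.add {A B : EVX X →ₗ[ZMod 2] EVX X} (hA : Good A) (hB : Good B) : Good (A + B) := by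
  obtain ⟨c, hc, hc'⟩ := hA
  obtain ⟨d, hd, hd'⟩ := hB
  refine ⟨c + d, ?_, fun w => ?_⟩
  · simp only [Pi.add_apply]
    rw [Finset.sum_add_distrib, hc, hd, add_zero]
  · simp only [Pi.add_apply, add_smul]
    rw [Finset.sum_add_distrib, hc', hd']
    rfl

theorem Good.smul {A : EVX X →ₗ[ZMod 2] EVX X} (hA : Good A) (r : ZMod 2) : Good (r • A) := by
  obtain ⟨c, hc, hc'⟩ := hA
  refine ⟨r • c, ?_, fun w => ?_⟩
  · simp only [Pi.smul_apply, smul_eq_mul]
    rw [← Finset.mul_sum, hc, mul_zero]
  · simp only [Pi.smul_apply, smul_eq_mul, mul_smul]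
    rw [← Finset.smul_sum, hc']
    rfl

theorem Good.sum {ι : Type*} (s : Finset ι) (A : ι → (EVX X →ₗ[ZMod 2] EVX X))
    (h : ∀ i ∈ s, Good (A i)) : Good (∑ i ∈ s, A i) :=
  Finset.sum_induction A Good (fun _ _ => Good.add) Good.zero h

/-- `e_k + e_l`. -/
def ekl (k l : X) : EVX X := ⟨Pi.single k 1 + Pi.single l 1, by
  rw [mem_EVX]
  simp only [Pi.add_apply]
  rw [Finset.sum_add_distrib, Finset.sum_pi_single', Finset.sum_pi_single',
    if_pos (Finset.mem_univ _), if_pos (Finset.mem_univ _)]
  exact CharTwo.add_self_eq_zero 1⟩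

theorem ekl_self (k : X) : ekl k k = 0 := Subtype.ext (ZModModule.add_self _)

/-- `w ↦ (w i + w j) (e_k + e_l)`. -/
def rk1 (i j k l : X) : EVX X →ₗ[ZMod 2] EVX X where
  toFun w := (w.1 i + w.1 j) • ekl k l
  map_add' v w := by
    rw [← add_smul]
    congr 1
    change v.1 i + w.1 i + (v.1 j + w.1 j) = _
    ring
  map_smul' r w := by
    rw [RingHom.id_apply, smul_smul]
    congr 1
    change r * w.1 i + r * w.1 j = _
    ring

omit [Fintype X] in
theorem exists_perm {i j k l : X} (hij : i ≠ j) (hkl : k ≠ l) :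
    ∃ s : Perm X, s i = k ∧ s j = l := by
  refine ⟨swap (swap i k j) l * swap i k, ?_, ?_⟩
  · rw [Perm.mul_apply, swap_apply_left, swap_apply_of_ne_of_ne _ hkl]
    intro h
    have h1 : swap i k i = swap i k j := by rw [swap_apply_left]; exact h
    exact hij ((swap i k).injective h1)
  · rw [Perm.mul_apply, swap_apply_left]

theorem permV_swap (i j : X) (w : EVX X) :
    permV (swap i j) w = w + (w.1 i + w.1 j) • ekl i j := by
  apply Subtype.ext
  funext x
  rw [permV_apply, swap_inv]
  change _ = w.1 x + (w.1 i + w.1 j) * ((Pi.single i 1 : X → ZMod 2) x + (Pi.single j 1 : X → ZMod 2) x)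
  by_cases hi : x = i
  · subst hi
    by_cases hj : j = x
    · subst hj
      rw [swap_self, refl_apply, CharTwo.add_self_eq_zero, zero_mul, add_zero]
    · rw [swap_apply_left, Pi.single_eq_same, Pi.single_eq_of_ne (Ne.symm hj), add_zero, mul_one,
        ← add_assoc, CharTwo.add_self_eq_zero, zero_add]
  · by_cases hj : x = j
    · subst hj
      rw [swap_apply_right, Pi.single_eq_same, Pi.single_eq_of_ne hi, zero_add, mul_one,
        add_comm (w.1 i), ← add_assoc, CharTwo.add_self_eq_zero, zero_add]
    · rw [swap_apply_of_ne_of_ne hi hj, Pi.single_eq_of_ne hi, Pi.single_eq_of_ne hj, add_zero,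
        mul_zero, add_zero]

theorem permV_ekl (s : Perm X) (i j : X) : permV s (ekl i j) = ekl (s i) (s j) := by
  apply Subtype.ext
  funext x
  rw [permV_apply]
  change (Pi.single i 1 : X → ZMod 2) (s⁻¹ x) + (Pi.single j 1 : X → ZMod 2) (s⁻¹ x) =
    (Pi.single (s i) 1 : X → ZMod 2) x + (Pi.single (s j) 1 : X → ZMod 2) x
  have h : ∀ i : X, (Pi.single i 1 : X → ZMod 2) (s⁻¹ x) = (Pi.single (s i) 1 : X → ZMod 2) x := by
    intro i
    rw [Pi.single_apply, Pi.single_apply]
    congr 1
    rw [Perm.inv_eq_iff_eq, eq_iff_iff]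
  rw [h, h]

theorem good_rk1 (i j k l : X) : Good (rk1 i j k l) := by
  by_cases hij : i = j
  · have : rk1 i j k l = 0 := by
      ext1 w
      change (w.1 i + w.1 j) • ekl k l = 0
      rw [hij, CharTwo.add_self_eq_zero, zero_smul]
    rw [this]
    exact Good.zero
  · by_cases hkl : k = l
    · have : rk1 i j k l = 0 := by
        ext1 w
        change (w.1 i + w.1 j) • ekl k l = 0
        rw [hkl, ekl_self, smul_zero]
      rw [this]
      exact Good.zero
    · obtain ⟨s, hs1, hs2⟩ := exists_perm hij hkl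
      refine ⟨Pi.single s 1 + Pi.single (s * swap i j) 1, ?_, fun w => ?_⟩
      · simp only [Pi.add_apply]
        rw [Finset.sum_add_distrib, Finset.sum_pi_single', Finset.sum_pi_single',
          if_pos (Finset.mem_univ _), if_pos (Finset.mem_univ _)]
        exact CharTwo.add_self_eq_zero 1
      · simp only [Pi.add_apply, add_smul]
        rw [Finset.sum_add_distrib]
        have h : ∀ t : Perm X, ∑ g, (Pi.single t 1 : Perm X → ZMod 2) g • permV g w
            = permV t w := by
          intro t
          rw [Fintype.sum_eq_single t]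
          · rw [Pi.single_eq_same, one_smul]
          · intro g hg
            rw [Pi.single_eq_of_ne hg, zero_smul]
        rw [h, h, map_mul, LinearEquiv.mul_apply, permV_swap, map_add, map_smul, permV_ekl, hs1, hs2,
          ← add_assoc, ZModModule.add_self, zero_add]
        rfl

/-- `e_i + (1, ..., 1)`. -/
def ebar (hX : Odd (Fintype.card X)) (i : X) : EVX X := ⟨Pi.single i 1 + 1, by
  rw [mem_EVX]
  simp only [Pi.add_apply, Pi.one_apply]
  rw [Finset.sum_add_distrib, Finset.sum_pi_single', if_pos (Finset.mem_univ _), Finset.sum_const,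
    nsmul_eq_mul, mul_one, Finset.card_univ, ZMod.natCast_eq_one_iff_odd.2 hX]
  exact CharTwo.add_self_eq_zero 1⟩

theorem good_all (hX : Odd (Fintype.card X)) (A : EVX X →ₗ[ZMod 2] EVX X) : Good A := by
  have hne : Nonempty X := Fintype.card_pos_iff.1 hX.pos
  obtain ⟨l⟩ := hne
  have hodd : ((Fintype.card X : ℕ) : ZMod 2) = 1 := ZMod.natCast_eq_one_iff_odd.2 hX
  have hA : A = ∑ i, ∑ j, ∑ k, (A (ebar hX i)).1 k • rk1 i j k l := by
    ext1 w
    have h1 : ∀ v : EVX X, ∑ k, v.1 k • ekl k l = v := by
      intro v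
      apply Subtype.ext
      rw [Submodule.coe_sum]
      funext x
      rw [Finset.sum_apply]
      change ∑ k, v.1 k * ((Pi.single k 1 : X → ZMod 2) x + (Pi.single l 1 : X → ZMod 2) x) = _
      simp only [mul_add]
      rw [Finset.sum_add_distrib, ← Finset.sum_mul, mem_EVX.1 v.2, zero_mul, add_zero,
        Finset.sum_eq_single x]
      · rw [Pi.single_eq_same, mul_one]
      · intro k _ hk
        rw [Pi.single_eq_of_ne (Ne.symm hk), mul_zero]
      · intro h
        exact absurd (Finset.mem_univ _) h
    have h2 : ∀ i, ∑ j, (w.1 i + w.1 j) = w.1 i := by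
      intro i
      rw [Finset.sum_add_distrib, mem_EVX.1 w.2, add_zero, Finset.sum_const, nsmul_eq_mul,
        Finset.card_univ, hodd, one_mul]
    have h3 : w = ∑ i, w.1 i • ebar hX i := by
      apply Subtype.ext
      rw [Submodule.coe_sum]
      funext x
      rw [Finset.sum_apply]
      change _ = ∑ k, w.1 k * ((Pi.single k 1 : X → ZMod 2) x + 1)
      simp only [mul_add, mul_one]
      rw [Finset.sum_add_distrib, mem_EVX.1 w.2, add_zero, Finset.sum_eq_single x]
      · rw [Pi.single_eq_same, mul_one]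
      · intro k _ hk
        rw [Pi.single_eq_of_ne (Ne.symm hk), mul_zero]
      · intro h
        exact absurd (Finset.mem_univ _) h
    conv_lhs => rw [h3, map_sum]
    rw [LinearMap.sum_apply]
    refine Finset.sum_congr rfl fun i _ => ?_
    rw [LinearMap.sum_apply, map_smul]
    have h4 : ∀ j, (∑ k, (A (ebar hX i)).1 k • rk1 i j k l) w
        = (w.1 i + w.1 j) • A (ebar hX i) := by
      intro j
      rw [LinearMap.sum_apply]
      conv_rhs => rw [← h1 (A (ebar hX i)), Finset.smul_sum]
      refine Finset.sum_congr rfl fun k _ => ?_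
      change (A (ebar hX i)).1 k • ((w.1 i + w.1 j) • ekl k l) = _
      rw [smul_comm]
    simp only [h4]
    rw [← Finset.sum_smul, h2]
  rw [hA]
  exact Good.sum _ _ fun i _ => Good.sum _ _ fun j _ => Good.sum _ _ fun k _ =>
    (good_rk1 i j k l).smul _

/-- **The group algebra of the symmetric group maps onto `End × F_2`.** -/
theorem span_perm (hX : Odd (Fintype.card X)) (A : EVX X →ₗ[ZMod 2] EVX X) (ε : ZMod 2) :
    ∃ T : Finset (Perm X), (∀ w, ∑ g ∈ T, permV g w = A w) ∧ (T.card : ZMod 2) = ε := by
  have key : ∃ c : Perm X → ZMod 2, (∀ w, ∑ g, c g • permV g w = A w) ∧ ∑ g, c g = ε := by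
    have h01 : ε = 0 ∨ ε = 1 := by
      revert ε
      decide
    rcases h01 with rfl | rfl
    · obtain ⟨c, h1, h2⟩ := good_all hX A
      exact ⟨c, h2, h1⟩
    · obtain ⟨c, h1, h2⟩ := good_all hX (A - LinearMap.id)
      refine ⟨c + Pi.single 1 1, fun w => ?_, ?_⟩
      · simp only [Pi.add_apply, add_smul]
        rw [Finset.sum_add_distrib, h2, Fintype.sum_eq_single (1 : Perm X)]
        · rw [Pi.single_eq_same, one_smul, map_one]
          change A w - w + w = A w
          exact sub_add_cancel _ _
        · intro g hg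
          rw [Pi.single_eq_of_ne hg, zero_smul]
      · simp only [Pi.add_apply]
        rw [Finset.sum_add_distrib, h1, Finset.sum_pi_single', if_pos (Finset.mem_univ _), zero_add]
  obtain ⟨c, h1, h2⟩ := key
  have hc : ∀ g, c g = if c g = 1 then 1 else 0 := by
    intro g
    generalize c g = a
    revert a
    decide
  refine ⟨Finset.univ.filter fun g => c g = 1, fun w => ?_, ?_⟩
  · rw [← h1 w, Finset.sum_filter]
    refine Finset.sum_congr rfl fun g _ => ?_
    rw [hc g]
    by_cases h : c g = 1
    · simp [h]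
    · simp [h]
  · rw [← h2, Finset.card_filter, Nat.cast_sum]
    refine Finset.sum_congr rfl fun g _ => ?_
    rw [hc g]
    by_cases h : c g = 1
    · simp [h]
    · simp [h]

/-- The same for a group acting on `X` through all permutations. -/
theorem span_of_surj (hX : Odd (Fintype.card X)) {G : Type*} [Group G] (r : G →* Perm X)
    (hr : Function.Surjective r) (A : EVX X →ₗ[ZMod 2] EVX X) (ε : ZMod 2) :
    ∃ T : Finset G, (∀ w, ∑ g ∈ T, permV (r g) w = A w) ∧ (T.card : ZMod 2) = ε := by
  obtain ⟨T, h1, h2⟩ := span_perm hX A ε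
  refine ⟨T.map ⟨Function.surjInv hr, Function.injective_surjInv hr⟩, fun w => ?_, ?_⟩
  · rw [Finset.sum_map, ← h1 w]
    refine Finset.sum_congr rfl fun g _ => ?_
    rw [Function.Embedding.coeFn_mk, Function.surjInv_eq hr]
  · rw [Finset.card_map, h2]

end Pool.Agent.SmN.Sn
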