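import Pool.Agent.Lib.SmN.F.Defs
import Pool.Agent.Lib.SmN.Sn.Span
import Pool.Agent.Lib.SmJ.L.GenGraph
import Pool.Agent.Lib.GBU.NP

/-!
# SmN: the even vectors `EV g` as a direct summand of the permutation module

`prE g a = a + (∑ a) (1, ..., 1)`. `permOk_ev`: `PermOk` for a system with `V1 = EV g`, the action by
permutations of the indices and the form `dotE g`. `span_ev`, `nofix_ev`: the fields `span`, `nofix` of
`CData.Ok` for a group which acts through all permutations (resp. transitively).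
`ker_mem_NP`: the kernel of the action on the roots is in `NP` if `n!` is invertible in `K`.
-/

set_option autoImplicit false

open Equiv

namespace Pool.Agent.SmN.Sn

open Pool.Agent.SmJ.L (EV dotE dotE_apply)

theorem card_odd (g : ℕ) : Odd (Fintype.card (Fin (2 * g + 1))) := by
  rw [Fintype.card_fin]
  exact ⟨g, rfl⟩

theorem natCast_two_mul_add_one (g : ℕ) : ((2 * g + 1 : ℕ) : ZMod 2) = 1 :=
  ZMod.natCast_eq_one_iff_odd.2 ⟨g, rfl⟩

/-- The projection onto the even vectors. -/
def prE (g : ℕ) : (Fin (2 * g + 1) → ZMod 2) →ₗ[ZMod 2] EV g where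
  toFun a := ⟨fun x => a x + ∑ y, a y, by
    change ∑ x, (a x + ∑ y, a y) = 0
    rw [Finset.sum_add_distrib, Finset.sum_const, nsmul_eq_mul, Finset.card_univ, Fintype.card_fin,
      natCast_two_mul_add_one, one_mul]
    exact CharTwo.add_self_eq_zero _⟩
  map_add' a b := by
    apply Subtype.ext
    funext x
    change a x + b x + ∑ y, (a y + b y) = (a x + ∑ y, a y) + (b x + ∑ y, b y)
    rw [Finset.sum_add_distrib]
    ring
  map_smul' c a := by
    apply Subtype.ext
    funext x
    change c * a x + ∑ y, c * a y = c * (a x + ∑ y, a y)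
    rw [← Finset.mul_sum]
    ring

theorem prE_apply {g : ℕ} (a : Fin (2 * g + 1) → ZMod 2) (x : Fin (2 * g + 1)) :
    (prE g a).1 x = a x + ∑ y, a y := rfl

/-- **`PermOk` for the even vectors.** -/
theorem permOk_ev {G V Pl : Type*} [Group G] [AddCommGroup V] [DistribMulAction G V] {g : ℕ}
    (S : Sys G V (EV g) Pl) [MulAction G (Fin (2 * g + 1))]
    (hac : ∀ (s : G) (w : EV g) (x : Fin (2 * g + 1)), (S.ac s w).1 x = w.1 (s⁻¹ • x))
    (he : S.e = dotE g)
    (htriv : ∃ N ∈ S.NN, ∀ n ∈ N, ∀ x : Fin (2 * g + 1), n • x = x) :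
    PermOk S (Fin (2 * g + 1)) (EV g).subtype (prE g) where
  triv := htriv
  p_i w := by
    apply Subtype.ext
    funext x
    rw [prE_apply]
    change w.1 x + ∑ y, w.1 y = w.1 x
    have h : ∑ y, w.1 y = 0 := w.2
    rw [h, add_zero]
  i_ac s w x := hac s w x
  p_ac s a := by
    apply Subtype.ext
    funext x
    rw [hac, prE_apply, prE_apply]
    congr 1
    exact Equiv.sum_comp (MulAction.toPerm s⁻¹ : Perm (Fin (2 * g + 1))) a
  adj a w := by
    have h : ∑ y, w.1 y = 0 := w.2
    rw [he, dotE_apply]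
    simp only [prE_apply, add_mul]
    rw [Finset.sum_add_distrib, ← Finset.mul_sum, h, mul_zero, add_zero]
    rfl

/-- The field `span` for a group which acts through all permutations. -/
theorem span_ev {G : Type*} [Group G] {g : ℕ} (r : G →* Perm (Fin (2 * g + 1)))
    (hr : Function.Surjective r) (ac : G →* (EV g ≃ₗ[ZMod 2] EV g))
    (hac : ∀ (s : G) (w : EV g) (x : Fin (2 * g + 1)), (ac s w).1 x = w.1 ((r s)⁻¹ x))
    (A : EV g →ₗ[ZMod 2] EV g) (ε : ZMod 2) :
    ∃ T : Finset G, (∀ w, ∑ s ∈ T, ac s w = A w) ∧ (T.card : ZMod 2) = ε := by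
  obtain ⟨T, h1, h2⟩ := span_of_surj (X := Fin (2 * g + 1)) (card_odd g) r hr A ε
  refine ⟨T, fun w => ?_, h2⟩
  refine Eq.trans ?_ (h1 w)
  refine Finset.sum_congr rfl fun s _ => ?_
  apply Subtype.ext
  funext x
  rw [hac]
  rfl

/-- No nonzero even vector is fixed by a transitive group. -/
theorem nofix_ev {g : ℕ} (H : Set (Perm (Fin (2 * g + 1))))
    (hH : ∀ x y : Fin (2 * g + 1), ∃ s ∈ H, s x = y) (w : EV g)
    (hw : ∀ s ∈ H, ∀ x, w.1 (s⁻¹ x) = w.1 x) : w = 0 := by
  have hc : ∀ x y, w.1 x = w.1 y := by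
    intro x y
    obtain ⟨s, hs, rfl⟩ := hH x y
    have h := hw s hs (s x)
    have h' : s⁻¹ (s x) = x := s.symm_apply_apply x
    rwa [h'] at h
  apply Subtype.ext
  funext x
  have h : ∑ y, w.1 y = 0 := w.2
  rw [Finset.sum_congr rfl fun y _ => hc y x, Finset.sum_const, nsmul_eq_mul, Finset.card_univ,
    Fintype.card_fin, natCast_two_mul_add_one, one_mul] at h
  exact h

open Pool.Agent.GBU in
/-- The kernel of a permutation representation of degree `n`, `n!` invertible in `K`. -/
theorem ker_mem_NP {K Om : Type*} [Field K] [Field Om] [Algebra K Om] {n : ℕ}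
    (r : (Om ≃ₐ[K] Om) →* Perm (Fin n)) (ho : IsOpen (r.ker : Set (Om ≃ₐ[K] Om)))
    (hn : (n.factorial : K) ≠ 0) : r.ker ∈ NP K Om := by
  refine ⟨inferInstance, ho, fun h0 => hn ?_⟩
  have h1 : r.ker.index ∣ n.factorial := by
    rw [Subgroup.index_ker]
    have h2 := Subgroup.card_subgroup_dvd_card r.range
    rwa [Nat.card_eq_fintype_card (α := Perm (Fin n)), Fintype.card_perm, Fintype.card_fin] at h2
  obtain ⟨m, hm⟩ := h1
  rw [hm, Nat.cast_mul, h0, zero_mul]

/-- The kernel of the action on finitely many algebraic elements is open. -/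
theorem ker_open {K Om : Type*} [Field K] [Field Om] [Algebra K Om] [Algebra.IsIntegral K Om]
    {n : ℕ} (a : Fin n → Om) (r : (Om ≃ₐ[K] Om) →* Perm (Fin n))
    (hr : ∀ s, (∀ i, s (a i) = a i) → r s = 1) : IsOpen (r.ker : Set (Om ≃ₐ[K] Om)) := by
  have : FiniteDimensional K (IntermediateField.adjoin K (Set.range a)) :=
    have : Finite (Set.range a) := Set.finite_range a
    IntermediateField.finiteDimensional_adjoin fun x _ => Algebra.IsIntegral.isIntegral x
  refine Subgroup.isOpen_mono (H₁ := (IntermediateField.adjoin K (Set.range a)).fixingSubgroup)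
    (fun s hs => ?_) (IntermediateField.fixingSubgroup_isOpen _)
  rw [MonoidHom.mem_ker]
  apply hr
  intro i
  exact (IntermediateField.mem_fixingSubgroup_iff _ _).mp hs _
    (IntermediateField.subset_adjoin K _ ⟨i, rfl⟩)

end Pool.Agent.SmN.Sn
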