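import Pool.Agent.Lib.SmN.Sn.Span
import Pool.Agent.Lib.SmN.F.Shap

/-!
# SmN: `H^1(Perm X, V1) = 0` and `V1^(Perm X) = 0` for the even vectors, `|X|` odd

`h1_perm` : every cocycle `Perm X → EVX X` is `s z - z`. PROOF. For `τ = (i j)` the component
`c τ x`, `x ≠ i, j`, does not depend on `x` (conjugate with `(x x')`) and `c τ i = c τ j`; the sum of all
components is `0` and `|X| - 2` is odd, so `c τ x = 0` for `x ≠ i, j`. Then `c (i k) k = c (i j) j + c (j k) k`,
so `c τ = τ z - z` for `z x = c (x x0) x`, for all transpositions and hence for all permutations.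

`h1_of_surj`, `h1_of_surj'` : the same for a group acting through all permutations.
-/

set_option autoImplicit false

open Equiv

namespace Pool.Agent.SmN.Sn

variable {X : Type*} [Fintype X] [DecidableEq X]

/-- No fixed vectors. -/
theorem nofix_perm (hX : Odd (Fintype.card X)) (w : EVX X) (hw : ∀ s : Perm X, permV s w = w) :
    w = 0 := by
  have h1 : ∀ x y : X, w.1 x = w.1 y := by
    intro x y
    have h2 := congrArg (fun v : EVX X => v.1 x) (hw (swap x y))
    simp only [permV_apply] at h2
    rw [swap_inv, swap_apply_left] at h2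
    exact h2.symm
  apply Subtype.ext
  funext x
  have h3 : ∑ y, w.1 y = 0 := w.2
  rw [Finset.sum_congr rfl fun y _ => h1 y x, Finset.sum_const, nsmul_eq_mul, Finset.card_univ,
    ZMod.natCast_eq_one_iff_odd.2 hX, one_mul] at h3
  exact h3

/-- `Perm X` acts faithfully on the even vectors if `|X| ≥ 3`. -/
theorem permV_faithful (h3 : 3 ≤ Fintype.card X) {s : Perm X} (hs : ∀ w : EVX X, permV s w = w) :
    s = 1 := by
  by_contra hne
  obtain ⟨i, hi⟩ : ∃ i, s i ≠ i := by
    by_contra h
    push Not at h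
    exact hne (Equiv.ext h)
  obtain ⟨l, hl⟩ : ∃ l, l ∉ ({i, s i} : Finset X) := by
    by_contra h
    push Not at h
    have h1 : (Finset.univ : Finset X) ⊆ {i, s i} := fun x _ => h x
    have h2 := Finset.card_le_card h1
    have h4 := Finset.card_le_two (a := i) (b := s i)
    rw [Finset.card_univ] at h2
    omega
  rw [Finset.mem_insert, Finset.mem_singleton, not_or] at hl
  have h1 := hs (ekl i l)
  rw [permV_ekl] at h1
  have h2 : ∀ x, (Pi.single (s i) 1 : X → ZMod 2) x + (Pi.single (s l) 1 : X → ZMod 2) x =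
      (Pi.single i 1 : X → ZMod 2) x + (Pi.single l 1 : X → ZMod 2) x := fun x =>
    congrArg (fun v : EVX X => v.1 x) h1
  have h4 := h2 i
  rw [Pi.single_eq_of_ne (Ne.symm hi), Pi.single_eq_same, Pi.single_eq_of_ne (Ne.symm hl.1),
    zero_add, add_zero] at h4
  have h5 : s l = i := by
    by_contra h
    rw [Pi.single_eq_of_ne (Ne.symm h)] at h4
    exact zero_ne_one h4
  have h6 := h2 l
  rw [h5, Pi.single_eq_of_ne hl.2, Pi.single_eq_of_ne hl.1, Pi.single_eq_same, zero_add,
    zero_add] at h6
  exact zero_ne_one h6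

section coc

variable {c : Perm X → X → ZMod 2}

/-- The cocycle condition. -/
private def H1C (c : Perm X → X → ZMod 2) : Prop :=
  ∀ s t x, c (s * t) x = c s x + c t (s⁻¹ x)

omit [Fintype X] [DecidableEq X] in
private theorem H1C.coc (hc : H1C c) : F.IsCoc (⊤ : Subgroup (Perm X)) c :=
  fun s _ t _ x => hc s t x

omit [Fintype X] in
/-- the values of `c (i j)` at `i` and `j` agree -/
private theorem H1C.swap_eq (hc : H1C c) (i j : X) : c (swap i j) i = c (swap i j) j := by
  have h1 := hc (swap i j) (swap i j) i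
  rw [swap_mul_self, hc.coc.one, swap_inv, swap_apply_left] at h1
  exact CharTwo.add_eq_zero.1 h1.symm

/-- `c (i j)` vanishes off `i`, `j` -/
private theorem H1C.swap_off (hX : Odd (Fintype.card X)) (hc : H1C c) (h0 : ∀ s, ∑ x, c s x = 0)
    {i j x : X} (hij : i ≠ j) (hi : x ≠ i) (hj : x ≠ j) : c (swap i j) x = 0 := by
  have h1 : ∀ y, y ≠ i → y ≠ j → c (swap i j) y = c (swap i j) x := by
    intro y hyi hyj
    have h2 := hc.coc.conj (g := swap x y) (s := swap i j) (x := x) trivial trivial
      (swap_apply_of_ne_of_ne hi hj)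
    have h3 : swap x y * swap i j * (swap x y)⁻¹ = swap i j := by
      rw [← swap_apply_apply, swap_apply_of_ne_of_ne (Ne.symm hi) (Ne.symm hyi),
        swap_apply_of_ne_of_ne (Ne.symm hj) (Ne.symm hyj)]
    rw [h3] at h2
    have h4 : (swap x y) • x = y := swap_apply_left x y
    rw [h4] at h2
    exact h2
  have h2 := h0 (swap i j)
  have hs : ∑ y, c (swap i j) y =
      c (swap i j) i + (c (swap i j) j + ∑ y ∈ (Finset.univ.erase i).erase j, c (swap i j) y) := by
    rw [← Finset.add_sum_erase _ _ (Finset.mem_univ i),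
      ← Finset.add_sum_erase _ _ (Finset.mem_erase.2 ⟨Ne.symm hij, Finset.mem_univ j⟩)]
  have hs2 : ∑ y ∈ (Finset.univ.erase i).erase j, c (swap i j) y = c (swap i j) x := by
    rw [Finset.sum_congr rfl (g := fun _ => c (swap i j) x) fun y hy => by
        rw [Finset.mem_erase, Finset.mem_erase] at hy
        exact h1 y hy.2.1 hy.1,
      Finset.sum_const, Finset.card_erase_of_mem (Finset.mem_erase.2 ⟨Ne.symm hij,
        Finset.mem_univ j⟩), Finset.card_erase_of_mem (Finset.mem_univ i), Finset.card_univ,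
      nsmul_eq_mul]
    have h5 : ((Fintype.card X - 1 - 1 : ℕ) : ZMod 2) = 1 := by
      rw [ZMod.natCast_eq_one_iff_odd]
      obtain ⟨m, hm⟩ := hX
      have h6 : 3 ≤ Fintype.card X := by
        have h7 : ({i, j, x} : Finset X).card = 3 := Finset.card_eq_three.2
          ⟨i, j, x, hij, Ne.symm hi, Ne.symm hj, rfl⟩
        rw [← h7]
        exact Finset.card_le_univ _
      exact ⟨m - 1, by omega⟩
    rw [h5, one_mul]
  rw [hs, hs2, hc.swap_eq i j, ← add_assoc, CharTwo.add_self_eq_zero, zero_add] at h2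
  exact h2

/-- the cocycle relation -/
private theorem H1C.swap_tri (hX : Odd (Fintype.card X)) (hc : H1C c) (h0 : ∀ s, ∑ x, c s x = 0)
    {i j k : X} (hij : i ≠ j) (hjk : j ≠ k) (hik : i ≠ k) :
    c (swap i k) k = c (swap i j) j + c (swap j k) k := by
  have h3 : swap i j * swap j k * (swap i j)⁻¹ = swap i k := by
    rw [← swap_apply_apply, swap_apply_right, swap_apply_of_ne_of_ne (Ne.symm hik) (Ne.symm hjk)]
  rw [← h3, hc, hc, mul_inv_rev, swap_inv, swap_inv, Perm.mul_apply,
    swap_apply_of_ne_of_ne (Ne.symm hik) (Ne.symm hjk), swap_apply_right,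
    hc.swap_off hX h0 hij (Ne.symm hik) (Ne.symm hjk), zero_add, add_comm]

/-- On functions. -/
private theorem H1C.cob (hX : Odd (Fintype.card X)) (hc : H1C c) (h0 : ∀ s, ∑ x, c s x = 0) :
    ∃ z : X → ZMod 2, ∀ s x, c s x = z x + z (s⁻¹ x) := by
  obtain ⟨x0⟩ : Nonempty X := Fintype.card_pos_iff.1 hX.pos
  set z : X → ZMod 2 := fun x => c (swap x x0) x with hz
  have hz0 : z x0 = 0 := by
    rw [hz]
    simp only [swap_self]
    exact hc.coc.one x0
  -- the transpositions
  have hi : ∀ i j : X, i ≠ j → c (swap i j) i = z i + z j := by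
    intro i j hij
    by_cases hi : i = x0
    · subst hi
      rw [hz0, zero_add, hc.swap_eq]
      rw [hz]
      simp only
      rw [swap_comm]
    · by_cases hj : j = x0
      · subst hj
        rw [hz0, add_zero]
      · have h1 := hc.swap_tri hX h0 hi (Ne.symm hj) hij
        rw [hc.swap_eq, h1, hz]
        simp only
        rw [hc.swap_eq i x0, swap_comm x0 j]
  have hsw : ∀ i j : X, i ≠ j → ∀ x, c (swap i j) x = z x + z ((swap i j)⁻¹ x) := by
    intro i j hij x
    rw [swap_inv]
    by_cases h1 : x = i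
    · subst h1
      rw [swap_apply_left, hi x j hij]
    · by_cases h2 : x = j
      · subst h2
        rw [swap_apply_right, ← hc.swap_eq, hi i x hij, add_comm]
      · rw [swap_apply_of_ne_of_ne h1 h2, hc.swap_off hX h0 hij h1 h2, CharTwo.add_self_eq_zero]
  refine ⟨z, fun s => ?_⟩
  induction s using Perm.swap_induction_on with
  | one =>
    intro x
    rw [hc.coc.one, inv_one, Perm.one_apply, CharTwo.add_self_eq_zero]
  | swap_mul f i j hij ih =>
    intro x
    rw [hc, hsw i j hij, ih, mul_inv_rev, Perm.mul_apply]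
    have h1 := CharTwo.add_self_eq_zero (z ((swap i j)⁻¹ x))
    linear_combination h1

end coc

/-- **`H^1(Perm X, V1) = 0`.** -/
theorem h1_perm (hX : Odd (Fintype.card X)) (c : Perm X → EVX X)
    (hc : ∀ s t, c (s * t) = c s + permV s (c t)) : ∃ z : EVX X, ∀ s, c s = permV s z - z := by
  obtain ⟨z, hz⟩ := H1C.cob (c := fun s x => (c s).1 x) hX
    (fun s t x => congrArg (fun v : EVX X => v.1 x) (hc s t)) (fun s => (c s).2)
  refine ⟨⟨fun x => z x + ∑ y, z y, ?_⟩, fun s => ?_⟩
  · rw [mem_EVX, Finset.sum_add_distrib, Finset.sum_const, Finset.card_univ, nsmul_eq_mul,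
      ZMod.natCast_eq_one_iff_odd.2 hX, one_mul, CharTwo.add_self_eq_zero]
  · apply Subtype.ext
    funext x
    change (c s).1 x = (z (s⁻¹ x) + ∑ y, z y) - (z x + ∑ y, z y)
    have h1 : (c s).1 x = z x + z (s⁻¹ x) := hz s x
    rw [h1, CharTwo.sub_eq_add]
    have h2 := CharTwo.add_self_eq_zero (∑ y, z y)
    linear_combination -h2

/-- The same for a group acting on `X` through all permutations, if the kernel is killed. -/
theorem h1_of_surj (hX : Odd (Fintype.card X)) {G : Type*} [Group G] (r : G →* Perm X)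
    (hr : Function.Surjective r) (c : G → EVX X)
    (hc : ∀ s t, c (s * t) = c s + permV (r s) (c t)) (hk : ∀ s, r s = 1 → c s = 0) :
    ∃ z : EVX X, ∀ s, c s = permV (r s) z - z := by
  have h1 : ∀ s t, r s = r t → c s = c t := by
    intro s t hst
    have h2 : c (s⁻¹ * t) = 0 := hk _ (by rw [map_mul, map_inv, hst, inv_mul_cancel])
    have h3 := hc s (s⁻¹ * t)
    rw [mul_inv_cancel_left, h2, map_zero, add_zero] at h3
    exact h3.symm
  obtain ⟨z, hz⟩ := h1_perm hX (fun σ => c (Function.surjInv hr σ)) fun σ τ => by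
    have h2 := hc (Function.surjInv hr σ) (Function.surjInv hr τ)
    rw [Function.surjInv_eq hr σ] at h2
    rw [← h2]
    refine h1 _ _ ?_
    rw [Function.surjInv_eq hr, map_mul, Function.surjInv_eq hr, Function.surjInv_eq hr]
  refine ⟨z, fun s => ?_⟩
  rw [← hz]
  exact h1 _ _ (Function.surjInv_eq hr _).symm

/-- The same, if the elements which act trivially on the even vectors are killed. -/
theorem h1_of_surj' (hX : Odd (Fintype.card X)) {G : Type*} [Group G] (r : G →* Perm X)
    (hr : Function.Surjective r) (c : G → EVX X)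
    (hc : ∀ s t, c (s * t) = c s + permV (r s) (c t))
    (hk : ∀ s, (∀ w, permV (r s) w = w) → c s = 0) :
    ∃ z : EVX X, ∀ s, c s = permV (r s) z - z :=
  h1_of_surj hX r hr c hc fun s hs => hk s fun w => by rw [hs, map_one]; rfl

end Pool.Agent.SmN.Sn
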